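import Mathlib
import Pool.Agent.Lib.MP_f4ff90_agE.MainX

/-!
# MP_f4ff90_ag : orbits on arbitrary varieties which converge to an etale fixed point

Setting: `K` is any field with an embedding `τ : K →+* ℂ`, `L` is any extension field of `K`, and
`X` is an arbitrary closed subset of affine `N`-space over `K`, given by a set `E` of equations
(for instance an affine open subset of a projective variety, with `E` its ideal; `E = ∅` is the
case `X =` affine space).  `f` is a rational self-map of `X` over `K`, with components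
`num i / den i` (`SelfMap`).  The point `q ∈ X(ℂ)` is a fixed point of `f` at which these fractions
are defined.  `X` may be singular at `q`, `q` need not be rational over `K`, and nothing is
supposed on `f` away from `q`.

The derivative of `f` at `q` acts on the Zariski tangent space of `X` at `q`.  We suppose that its
eigenvalues there belong to a finite list `lam` of non-zero complex numbers (`f` is etale at `q`)
with *no rotation*: all `lam i` are real, or every product `∏ lam i ^ δ i` (`δ i` integers) of
absolute value `1` is a root of unity (this holds if the numbers `log |lam i|` are linearly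
independent over `ℚ`).

An orbit `x` of `f` in `X(K)` is called *nice* with period `m` (`Nice`) if

* the return sets of `x` to all Zariski closed subsets of `L ^ N` are eventually `m`-periodic
  (dynamical Mordell-Lang statement),
* if the Zariski closure of `x` is irreducible, then `x` is generic in it,
* (Q1) if `X` is irreducible over `L` and `x` is Zariski dense in `X`, then `x` is generic: every
  Zariski closed set which does not contain `X` contains `x n` for finitely many `n` only.

The theorem: there is `m ≥ 1` such that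

1. every orbit `x` in `X(K)` for which `τ x_n` converges to `q` exponentially fast is nice;
2. if no `lam i` has absolute value `1`, then every orbit `x` in `X(K)` for which `τ x_n` converges
   to `q` is nice (this concerns all orbits on the stable manifold of a saddle);
3. if all `|lam i| < 1`, then there is `r > 0` such that for every `x_0 ∈ X(K)` whose image under
   `τ` has distance less than `r` from `q`, the orbit of `x_0` is well defined, stays in `X`,
   converges to `q` and is nice.
-/

set_option autoImplicit false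

open Filter Topology MvPolynomial

namespace Pool.Agent.Results.MP_f4ff90_ag.EtaleLimit

universe u v

variable {N : ℕ} {K : Type u} {L : Type v} [Field K] [Field L] [Algebra K L]

/-! ## The variety and the map -/

/-- the point `v` of `K ^ N` lies on the closed set `X` with the equations `E` -/
def OnX (E : Set (MvPolynomial (Fin N) K)) (v : Fin N → K) : Prop := ∀ P ∈ E, eval v P = 0

/-- `f = num / den` is a rational self-map of the closed set `X` with the equations `E`: for every
equation `P` of `X`, the pull-back `P ∘ f`, multiplied by a power of the denominators, is a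
polynomial in the ideal of `X` -/
def SelfMap (num den : Fin N → MvPolynomial (Fin N) K) (E : Set (MvPolynomial (Fin N) K)) : Prop :=
  ∀ P ∈ E, ∃ P' ∈ Ideal.span E, ∃ e : ℕ, ∀ v : Fin N → K, (∀ i, eval v (den i) ≠ 0) →
    eval v P' = eval (fun i => eval v (num i) / eval v (den i)) P * (∏ i, eval v (den i)) ^ e

/-- `x` is an orbit of the rational map with components `num i / den i`, and the denominators do
not vanish along `x` -/
def IsOrbit (num den : Fin N → MvPolynomial (Fin N) K) (x : ℕ → Fin N → K) : Prop :=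
  ∀ n i, eval (x n) (den i) ≠ 0 ∧ x (n + 1) i = eval (x n) (num i) / eval (x n) (den i)

/-! ## Zariski closed sets, genericity -/

/-- the point `v` of `K ^ N` as a point of `L ^ N` -/
def toL (L : Type v) [Field L] [Algebra K L] (v : Fin N → K) : Fin N → L :=
  fun i => algebraMap K L (v i)

/-- Zariski closed subsets of `L ^ N` -/
def ZClosed (Y : Set (Fin N → L)) : Prop :=
  ∃ T : Set (MvPolynomial (Fin N) L), Y = {z | ∀ P ∈ T, eval z P = 0}

/-- for every Zariski closed subset `Y` of `L ^ N`, the set of all `n` with `x n ∈ Y` is eventually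
periodic with period `m` -/
def DML (L : Type v) [Field L] [Algebra K L] (m : ℕ) (x : ℕ → Fin N → K) : Prop :=
  ∀ Y : Set (Fin N → L), ZClosed Y → ∃ n₀, ∀ n ≥ n₀, (toL L (x (n + m)) ∈ Y ↔ toL L (x n) ∈ Y)

/-- the Zariski closure of the set of all `x n` in `L ^ N` is irreducible -/
def IrredClosure (L : Type v) [Field L] [Algebra K L] (x : ℕ → Fin N → K) : Prop :=
  ∀ Y₁ Y₂ : Set (Fin N → L), ZClosed Y₁ → ZClosed Y₂ → (∀ n, toL L (x n) ∈ Y₁ ∪ Y₂) →
    (∀ n, toL L (x n) ∈ Y₁) ∨ ∀ n, toL L (x n) ∈ Y₂

/-- `x` is generic in its Zariski closure: every Zariski closed set which does not contain the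
closure (equivalently, does not contain all `x n`) contains only finitely many terms -/
def GenericInClosure (L : Type v) [Field L] [Algebra K L] (x : ℕ → Fin N → K) : Prop :=
  ∀ Y : Set (Fin N → L), ZClosed Y → (∃ n, toL L (x n) ∉ Y) → {n | toL L (x n) ∈ Y}.Finite

/-- the set of the `L`-valued points of `X` -/
def points (L : Type v) [Field L] [Algebra K L] (E : Set (MvPolynomial (Fin N) K)) :
    Set (Fin N → L) := {z | ∀ P ∈ E, eval₂ (algebraMap K L) z P = 0}

/-- `X` is irreducible over `L` -/
def IrredX (L : Type v) [Field L] [Algebra K L] (E : Set (MvPolynomial (Fin N) K)) : Prop :=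
  ∀ Y₁ Y₂ : Set (Fin N → L), ZClosed Y₁ → ZClosed Y₂ → points L E ⊆ Y₁ ∪ Y₂ →
    points L E ⊆ Y₁ ∨ points L E ⊆ Y₂

/-- `x` is Zariski dense in `X` -/
def DenseInX (L : Type v) [Field L] [Algebra K L] (E : Set (MvPolynomial (Fin N) K))
    (x : ℕ → Fin N → K) : Prop :=
  ∀ Y : Set (Fin N → L), ZClosed Y → (∀ n, toL L (x n) ∈ Y) → points L E ⊆ Y

/-- `x` is generic in `X` -/
def GenericInX (L : Type v) [Field L] [Algebra K L] (E : Set (MvPolynomial (Fin N) K))
    (x : ℕ → Fin N → K) : Prop :=
  ∀ Y : Set (Fin N → L), ZClosed Y → ¬ points L E ⊆ Y → {n | toL L (x n) ∈ Y}.Finite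

/-- the three conclusions -/
def Nice (L : Type v) [Field L] [Algebra K L] (E : Set (MvPolynomial (Fin N) K)) (m : ℕ)
    (x : ℕ → Fin N → K) : Prop :=
  DML L m x ∧ (IrredClosure L x → GenericInClosure L x) ∧
    (IrredX L E → DenseInX L E x → GenericInX L E x)

/-! ## The fixed point -/

/-- the value at `q ∈ ℂ ^ N` of a polynomial with coefficients in `K` -/
noncomputable def value (τ : K →+* ℂ) (q : Fin N → ℂ) (P : MvPolynomial (Fin N) K) : ℂ :=
  eval₂ τ q P

/-- `q` is a point of `X(ℂ)`, the map with components `num i / den i` is defined at `q`, and `q` is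
a fixed point -/
def IsFixedPoint (τ : K →+* ℂ) (num den : Fin N → MvPolynomial (Fin N) K)
    (E : Set (MvPolynomial (Fin N) K)) (q : Fin N → ℂ) : Prop :=
  (∀ P ∈ E, value τ q P = 0) ∧
    ∀ i, value τ q (den i) ≠ 0 ∧ value τ q (num i) / value τ q (den i) = q i

/-- the Zariski tangent space of `X` at `q` -/
def tangentSpace (τ : K →+* ℂ) (E : Set (MvPolynomial (Fin N) K)) (q : Fin N → ℂ) :
    Set (Fin N → ℂ) := {v | ∀ P ∈ E, ∑ j, value τ q (pderiv j P) * v j = 0}

/-- the jacobian matrix at `q` of the rational map with components `num i / den i` -/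
noncomputable def jacobian (τ : K →+* ℂ) (num den : Fin N → MvPolynomial (Fin N) K)
    (q : Fin N → ℂ) : Matrix (Fin N) (Fin N) ℂ :=
  Matrix.of fun i j => (value τ q (pderiv j (num i)) * value τ q (den i) -
    value τ q (num i) * value τ q (pderiv j (den i))) / value τ q (den i) ^ 2

/-- all eigenvalues of the derivative of `f` on the tangent space of `X` at `q` are among the
`lam i` -/
def EigenvaluesAmong {l : ℕ} (τ : K →+* ℂ) (num den : Fin N → MvPolynomial (Fin N) K)
    (E : Set (MvPolynomial (Fin N) K)) (q : Fin N → ℂ) (lam : Fin l → ℂ) : Prop :=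
  ∀ (μ : ℂ) (v : Fin N → ℂ), v ∈ tangentSpace τ E q → v ≠ 0 →
    (jacobian τ num den q).mulVec v = μ • v → ∃ i, μ = lam i

/-- **no rotation**: every product of integral powers of the `lam i` which has absolute value `1`
is a root of unity -/
def NoRotation {l : ℕ} (lam : Fin l → ℂ) : Prop :=
  ∀ δ : Fin l → ℤ, ‖∏ i, lam i ^ δ i‖ = 1 → ∃ k > 0, (∏ i, lam i ^ δ i) ^ k = 1

/-! ## The theorem -/

lemma ZClosed.union {Y₁ Y₂ : Set (Fin N → L)} (h₁ : ZClosed Y₁) (h₂ : ZClosed Y₂) :
    ZClosed (Y₁ ∪ Y₂) := by
  obtain ⟨T₁, rfl⟩ := h₁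
  obtain ⟨T₂, rfl⟩ := h₂
  refine ⟨{R | ∃ P ∈ T₁, ∃ Q ∈ T₂, R = P * Q}, ?_⟩
  ext z
  constructor
  · rintro (h | h) _ ⟨P, hP, Q, hQ, rfl⟩
    · rw [map_mul, h P hP, zero_mul]
    · rw [map_mul, h Q hQ, mul_zero]
  · intro h
    by_cases h1 : ∀ P ∈ T₁, eval z P = 0
    · exact Or.inl h1
    · push Not at h1
      obtain ⟨P, hP, hP0⟩ := h1
      refine Or.inr fun Q hQ => ?_
      have h2 := h (P * Q) ⟨P, hP, Q, hQ, rfl⟩
      rw [map_mul] at h2
      exact (mul_eq_zero.1 h2).resolve_left hP0

/-- **Main theorem.**  See the header of this file. -/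
theorem result {N l : ℕ} {K : Type u} {L : Type v} [Field K] [Field L] [Algebra K L] (τ : K →+* ℂ)
    (E : Set (MvPolynomial (Fin N) K)) (num den : Fin N → MvPolynomial (Fin N) K)
    (hf : SelfMap num den E) (q : Fin N → ℂ) (hq : IsFixedPoint τ num den E q)
    (lam : Fin l → ℂ) (h0 : ∀ i, lam i ≠ 0) (hlam : EigenvaluesAmong τ num den E q lam)
    (hrot : (∀ i, (lam i).im = 0) ∨ NoRotation lam) :
    ∃ m > 0,
      -- 1. orbits which converge to `q` exponentially fast
      (∀ x : ℕ → Fin N → K, IsOrbit num den x → OnX E (x 0) →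
        (∃ ρ C : ℝ, 0 < ρ ∧ ρ < 1 ∧ ∀ n i, ‖τ (x n i) - q i‖ ≤ C * ρ ^ n) → Nice L E m x) ∧
      -- 2. orbits which converge to a hyperbolic fixed point
      ((∀ i, ‖lam i‖ ≠ 1) → ∀ x : ℕ → Fin N → K, IsOrbit num den x → OnX E (x 0) →
        (∀ i, Tendsto (fun n => τ (x n i)) atTop (𝓝 (q i))) → Nice L E m x) ∧
      -- 3. all starting points near an attracting fixed point
      ((∀ i, ‖lam i‖ < 1) → ∃ r > (0 : ℝ), ∀ x : ℕ → Fin N → K, OnX E (x 0) →
        (∀ i, ‖τ (x 0 i) - q i‖ < r) →
        (∀ n i, x (n + 1) i = eval (x n) (num i) / eval (x n) (den i)) →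
          IsOrbit num den x ∧ (∀ n, OnX E (x n)) ∧
            (∀ i, Tendsto (fun n => τ (x n i)) atTop (𝓝 (q i))) ∧ Nice L E m x) := by
  have hv : ∀ P : MvPolynomial (Fin N) K, eval q (MvPolynomial.map τ P) = value τ q P :=
    fun P => eval_map τ q P
  have hJ : MP_f4ff90_agE.Jac (fun i => MvPolynomial.map τ (num i))
      (fun i => MvPolynomial.map τ (den i)) q = jacobian τ num den q := by
    ext i j
    simp only [MP_f4ff90_agE.Jac, jacobian, Matrix.of_apply, pderiv_map, hv]
  have hT : ∀ v, v ∈ MP_f4ff90_agE.TanE (MvPolynomial.map τ '' E) q → v ∈ tangentSpace τ E q := by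
    intro v h P hP
    have h1 := h _ ⟨P, hP, rfl⟩
    simpa only [pderiv_map, hv] using h1
  have hrot' : NoRotation lam := by
    rcases hrot with h | h
    · exact fun δ h1 => MP_f4ff90_agE.norot_real lam h δ h1
    · exact h
  have hon : ∀ x : ℕ → Fin N → K, IsOrbit num den x → OnX E (x 0) → ∀ n, OnX E (x n) := by
    intro x hx hx0 n
    induction n with
    | zero => exact hx0
    | succ n ih =>
      exact MP_f4ff90_agE.SelfMap.step (E := E) hf ih (fun i => (hx n i).1) fun i => (hx n i).2
  have hnice : ∀ (m : ℕ) (x : ℕ → Fin N → K), (∀ n, OnX E (x n)) →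
      MP_f4ff90_agE.Concl L m x → Nice L E m x := by
    rintro m x hx ⟨h1, h2, -⟩
    refine ⟨h1, h2, fun hX hd Y hY hne => ?_⟩
    have hmem : ∀ n, toL L (x n) ∈ points L E := by
      intro n P hP
      have h3 : eval₂ (algebraMap K L) (toL L (x n)) P = algebraMap K L (eval (x n) P) :=
        (eval₂_comp (f := algebraMap K L) (g := x n) (p := P)).symm
      rw [h3, hx n P hP, map_zero]
    have hirr : IrredClosure L x := by
      intro Y₁ Y₂ hY₁ hY₂ h3
      rcases hX Y₁ Y₂ hY₁ hY₂ (hd _ (hY₁.union hY₂) h3) with h4 | h4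
      · exact Or.inl fun n => h4 (hmem n)
      · exact Or.inr fun n => h4 (hmem n)
    refine h2 hirr Y hY ?_
    by_contra hcon
    push Not at hcon
    exact hne (hd Y hY hcon)
  obtain ⟨m, hm, h1, h2, h3⟩ := MP_f4ff90_agE.main_allX L τ num den E hf q
    (fun P hP => by rw [hv]; exact hq.1 P hP) (fun i => by rw [hv]; exact (hq.2 i).1)
    (fun i => by rw [hv, hv]; exact (hq.2 i).2) lam h0
    (fun μ v hvT hv0 hJv => hlam μ v (hT v hvT) hv0 (by rw [← hJ]; exact hJv)) hrot'
  refine ⟨m, hm, fun x hx hx0 hc => hnice m x (hon x hx hx0) (h1 x hx hx0 hc),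
    fun hl x hx hx0 ht => hnice m x (hon x hx hx0) (h2 hl x hx hx0 ht), fun hl => ?_⟩
  obtain ⟨r, hr, h4⟩ := h3 hl
  refine ⟨r, hr, fun x hx0 hxr hrec => ?_⟩
  obtain ⟨h5, h6, h7⟩ := h4 x hx0 hxr hrec
  exact ⟨h5, hon x h5 hx0, h6, hnice m x (hon x h5 hx0) h7⟩

end Pool.Agent.Results.MP_f4ff90_ag.EtaleLimit
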