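import Mathlib
import Pool.Agent.Lib.MP_f4ff90_agP.Lin

/-!
# MP_f4ff90_ag : polynomial maps of affine space which are powers at infinity

Setting: `K` is a number field with a real embedding `τ : K →+* ℝ`, `L` is any extension field of
`K` (for instance `ℂ` or an algebraic closure), `e ≥ 2`, `σ` is a permutation of `Fin g`, and `F` is
a polynomial self-map of affine `g`-space over `K`.

The basic class of maps: after an invertible linear change `A` of the coordinates over `K`, the
`i`-th component of `F` is `c_i * x_(σ i) ^ e` plus an arbitrary polynomial (in all the variables)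
of degree less than `e`, `c_i ≠ 0` (`DiagonalAtInfinity`).  Nothing is assumed on the lower terms:
such an `F` is in general not split, not triangular, and ramified.

An orbit `x` of `F` in `K ^ g` is called *nice* with period `m` (`Nice`) if

* the signs of all polynomials along `x` (with respect to `τ`) are eventually `m`-periodic,
* the return sets of `x` to all Zariski closed subsets of `L ^ g` are eventually `m`-periodic
  (dynamical Mordell-Lang statement),
* if the Zariski closure of `x` is irreducible, then `x` is generic in it,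
* if `x` is Zariski dense in `L ^ g`, then `x` is generic.

The theorem, with `m = 2 * orderOf σ`:

1. every orbit of a polynomial map of degree `≤ e` along which, for every `i`, the monomial
   `x_(σ i) ^ e` of the `i`-th component dominates all its other monomials, is nice;
2. for `F` diagonal at infinity there is an explicit unbounded region of starting points: for some
   constant `C`, all orbits with `C * X ^ (e - 1) ≤ |y_i| ^ e` for all `i` are nice, where
   `y = A x_0` and `X ≥ 1` is any bound of all `|y_j|`;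
3. for `F` diagonal at infinity, 100 % of all starting points in every lattice are nice: for every
   finite family `w` of vectors which generates the vector space `K ^ g` (for instance the standard
   basis, for the starting points in `ℤ ^ g`, or a `ℤ`-basis of the `g`-th power of the ring of
   integers of `K`), the proportion of the `u` in the box `|u_k| ≤ B` for which the orbit of
   `∑ u_k w_k` is not nice tends to `0` as `B → ∞`.
-/

set_option autoImplicit false

open Filter Topology MvPolynomial

namespace Pool.Agent.Results.MP_f4ff90_ag.PowerMaps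

universe u v

variable {g : ℕ} {K : Type u} {L : Type v} [Field K] [Field L] [Algebra K L]

/-! ## Orbits, Zariski closed sets, genericity -/

/-- the point `v` of `K ^ g` as a point of `L ^ g` -/
def toL (L : Type v) [Field L] [Algebra K L] (v : Fin g → K) : Fin g → L :=
  fun i => algebraMap K L (v i)

/-- `x` is an orbit of the polynomial self-map `F` of `K ^ g` -/
def IsOrbit (F : Fin g → MvPolynomial (Fin g) K) (x : ℕ → Fin g → K) : Prop :=
  ∀ n i, x (n + 1) i = eval (x n) (F i)

/-- the orbit of `a` under `F` -/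
noncomputable def orbit (F : Fin g → MvPolynomial (Fin g) K) (a : Fin g → K) : ℕ → Fin g → K
  | 0 => a
  | n + 1 => fun i => eval (orbit F a n) (F i)

/-- Zariski closed subsets of `L ^ g` -/
def ZClosed (Y : Set (Fin g → L)) : Prop :=
  ∃ T : Set (MvPolynomial (Fin g) L), Y = {z | ∀ P ∈ T, eval z P = 0}

/-- for every Zariski closed subset `Y` of `L ^ g`, the set of all `n` with `x n ∈ Y` is eventually
periodic with period `m` -/
def DML (L : Type v) [Field L] [Algebra K L] (m : ℕ) (x : ℕ → Fin g → K) : Prop :=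
  ∀ Y : Set (Fin g → L), ZClosed Y → ∃ n₀, ∀ n ≥ n₀, (toL L (x (n + m)) ∈ Y ↔ toL L (x n) ∈ Y)

/-- the Zariski closure of the set of all `x n` in `L ^ g` is irreducible -/
def IrredClosure (L : Type v) [Field L] [Algebra K L] (x : ℕ → Fin g → K) : Prop :=
  ∀ Y₁ Y₂ : Set (Fin g → L), ZClosed Y₁ → ZClosed Y₂ → (∀ n, toL L (x n) ∈ Y₁ ∪ Y₂) →
    (∀ n, toL L (x n) ∈ Y₁) ∨ ∀ n, toL L (x n) ∈ Y₂

/-- `x` is generic in its Zariski closure: every Zariski closed set which does not contain the
closure (equivalently, does not contain all `x n`) contains only finitely many terms -/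
def GenericInClosure (L : Type v) [Field L] [Algebra K L] (x : ℕ → Fin g → K) : Prop :=
  ∀ Y : Set (Fin g → L), ZClosed Y → (∃ n, toL L (x n) ∉ Y) → {n | toL L (x n) ∈ Y}.Finite

/-- `x` is Zariski dense in affine space -/
def ZDense (L : Type v) [Field L] [Algebra K L] (x : ℕ → Fin g → K) : Prop :=
  ∀ Y : Set (Fin g → L), ZClosed Y → (∀ n, toL L (x n) ∈ Y) → Y = Set.univ

/-- `x` is generic in affine space -/
def ZGeneric (L : Type v) [Field L] [Algebra K L] (x : ℕ → Fin g → K) : Prop :=
  ∀ Y : Set (Fin g → L), ZClosed Y → Y ≠ Set.univ → {n | toL L (x n) ∈ Y}.Finite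

/-- the signs (for the ordering of `K` given by `τ`) of all polynomials along `x` are eventually
periodic with period `m` -/
def SignPeriodicAt (τ : K →+* ℝ) (m : ℕ) (x : ℕ → Fin g → K) : Prop :=
  ∀ P : MvPolynomial (Fin g) K, ∃ n₀, ∀ n ≥ n₀,
    SignType.sign (τ (eval (x (n + m)) P)) = SignType.sign (τ (eval (x n) P))

/-- the four conclusions -/
def Nice (L : Type v) [Field L] [Algebra K L] (τ : K →+* ℝ) (m : ℕ) (x : ℕ → Fin g → K) : Prop :=
  SignPeriodicAt τ m x ∧ DML L m x ∧ (IrredClosure L x → GenericInClosure L x) ∧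
    (ZDense L x → ZGeneric L x)

/-! ## The maps -/

/-- the linear form with coefficients `a` -/
noncomputable def linForm (a : Fin g → K) : MvPolynomial (Fin g) K := ∑ j, C (a j) * X j

/-- in the linear coordinates `y = A x`, the `i`-th component of the map `F` is
`c_i * y_(σ i) ^ e` plus terms of degree less than `e` -/
def DiagonalAtInfinity (e : ℕ) (σ : Equiv.Perm (Fin g)) (A : Matrix (Fin g) (Fin g) K)
    (F : Fin g → MvPolynomial (Fin g) K) : Prop :=
  ∃ c : Fin g → K, (∀ i, c i ≠ 0) ∧
    ∀ i, (∑ j, C (A i j) * F j - C (c i) * linForm (A (σ i)) ^ e).totalDegree < e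

/-- along `x`, for every `i`, the `i`-th component of `F` is dominated (for `τ`) by its monomial
`x_(σ i) ^ e` -/
def PowerDominated (τ : K →+* ℝ) (e : ℕ) (σ : Equiv.Perm (Fin g))
    (F : Fin g → MvPolynomial (Fin g) K) (x : ℕ → Fin g → K) : Prop :=
  (∀ i, (F i).coeff (Finsupp.single (σ i) e) ≠ 0) ∧ (∃ n₀, ∀ n ≥ n₀, ∀ i, x n i ≠ 0) ∧
    ∀ i, ∀ m ∈ (F i).support, m ≠ Finsupp.single (σ i) e →
      Tendsto (fun n => τ ((∏ j, x n j ^ m j) / x n (σ i) ^ e)) atTop (𝓝 0)

/-! ## The theorem -/

/-- **Main theorem.**  See the header of this file. -/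
theorem result {g : ℕ} {K : Type u} {L : Type v} [Field K] [NumberField K] [Field L] [Algebra K L]
    (τ : K →+* ℝ) {e : ℕ} (he : 2 ≤ e) (σ : Equiv.Perm (Fin g))
    (F : Fin g → MvPolynomial (Fin g) K) :
    -- 1. orbits which are dominated by powers
    ((∀ i, (F i).totalDegree ≤ e) → ∀ x : ℕ → Fin g → K, IsOrbit F x → PowerDominated τ e σ F x →
      Nice L τ (2 * orderOf σ) x) ∧
    ∀ A : Matrix (Fin g) (Fin g) K, IsUnit A.det → DiagonalAtInfinity e σ A F →
      -- 2. an explicit region
      (∃ C : ℝ, 0 < C ∧ ∀ x : ℕ → Fin g → K, IsOrbit F x → ∀ X : ℝ, 1 ≤ X →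
        (∀ j, |τ (A.mulVec (x 0) j)| ≤ X) →
        (∀ i, C * X ^ (e - 1) ≤ |τ (A.mulVec (x 0) i)| ^ e) → Nice L τ (2 * orderOf σ) x) ∧
      -- 3. all starting points in a lattice except for a proportion tending to zero
      ∀ (N : ℕ) (w : Fin N → Fin g → K), Submodule.span K (Set.range w) = ⊤ →
        ∀ ε > (0 : ℝ), ∃ B₀ : ℕ, ∀ B ≥ B₀,
          ({u : Fin N → ℤ | (∀ k, |u k| ≤ B) ∧
            ¬ Nice L τ (2 * orderOf σ) (orbit F (∑ k, u k • w k))}.ncard : ℝ) ≤
              ε * (2 * (B : ℝ) + 1) ^ N := by
  have horb : ∀ a n, orbit F a n = MP_f4ff90_agP.orbK F a n := by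
    intro a n
    induction n with
    | zero => rfl
    | succ n ih =>
      funext i
      show eval (orbit F a n) (F i) = eval (MP_f4ff90_agP.orbK F a n) (F i)
      rw [ih]
  have hm : 0 < 2 * orderOf σ := Nat.mul_pos two_pos (orderOf_pos σ)
  refine ⟨fun hF x hx hd => MP_f4ff90_agP.main_one L τ he σ F hF x hx hd.1 hd.2.1 hd.2.2,
    fun A hA hD => ⟨?_, ?_⟩⟩
  · obtain ⟨C, hC, h⟩ := MP_f4ff90_agP.lin_two τ he σ A hA F hD
    exact ⟨C, hC, fun x hx X hX h1 h2 =>
      MP_f4ff90_agP.concl_of L τ hm F x hx (h x hx X hX h1 h2)⟩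
  · intro N w hw ε hε
    classical
    obtain ⟨B₀, hB⟩ := MP_f4ff90_agP.lin_three τ he σ A hA F hD w hw ε hε
    refine ⟨B₀, fun B hB1 => le_trans ?_ (hB B hB1)⟩
    rw [← Set.ncard_coe_finset]
    refine Nat.cast_le.2 (Set.ncard_le_ncard ?_ (Finset.finite_toSet _))
    rintro u ⟨hu, hn⟩
    rw [Finset.mem_coe, Finset.mem_filter, Fintype.mem_piFinset]
    refine ⟨fun k => Finset.mem_Icc.2 (abs_le.1 (hu k)), fun hs => hn ?_⟩
    have h1 : orbit F (∑ k, u k • w k) = MP_f4ff90_agP.orbK F (∑ k, u k • w k) :=
      funext (horb _)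
    rw [h1]
    exact MP_f4ff90_agP.concl_of L τ hm F _ (fun n i => rfl) hs

end Pool.Agent.Results.MP_f4ff90_ag.PowerMaps
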