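import Pool.Agent.Lib.MP_f4ff90_agQ.IntP
import Pool.Agent.Lib.MP_f4ff90_agQ.Rat
import Pool.Agent.Lib.MP_f4ff90_agQ.Gen
import Pool.Agent.Lib.MP_f4ff90_agQ.Idl

/-!
# MP_f4ff90_ag: dense orbits of rational self-maps and quadratic recurrences

The question for all rational self-maps of all projective varieties over the algebraic numbers is
equivalent to the statement that the integer sequences `1, 1, 0, …, 0, …` which satisfy a recurrence
given by a quadratic form with coefficients `-1, 0, 1` have eventually periodic zero sets.
-/

set_option autoImplicit false

namespace Pool.Agent.Results.MP_f4ff90_ag.QuadraticRecurrences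

open MP_f4ff90_agQ

theorem result : List.TFAE [Question, MordellLang, IntegerMaps, MP_f4ff90_agQ.QuadraticRecurrences] := by
  tfae_have 1 → 4 := quadraticRecurrences_of_question
  tfae_have 4 → 3 := integerMaps_of_quadraticRecurrences
  tfae_have 3 → 2 := mordellLang_of_integerMaps
  tfae_have 2 → 1 := question_of_mordellLang
  tfae_finish

end Pool.Agent.Results.MP_f4ff90_ag.QuadraticRecurrences
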