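import Mathlib
import Pool.Agent.Lib.MP_f4ff90_ag.TFinal

/-!
# MP_f4ff90_ag : orbits of triangular rational maps over fields with a real place

Setting: `K` is a field with an embedding `τ : K →+* ℝ`, `L` is any extension field of `K`
(for instance an algebraic closure), `f` is a triangular rational self-map of affine `d`-space
over `K`: its `i`-th component is `num i / den i`, where `num i` and `den i` are polynomials in the
coordinates `X j`, `j ≤ i`.  The sequence `x` is an orbit of `f` in `K ^ d` along which no `den i`
vanishes.

Every coordinate is supposed to be of one of three types.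

* *Affine*: `num i = A * X i + B`, where `A`, `B` and `den i` involve only the lower coordinates
  (no condition on the orbit).
* *Split*: `num i` is a polynomial `F` in `X i` alone and `den i = 1`; and `F` and `x 0 i` are
  integral, or the sequence `τ (x n i)` is asymptotically periodic in `[-∞, ∞]`.
* *Tame*: a finite test on signs, see `TameCoord`.

The theorem: there is `p ≥ 1` (and `p = 1` if all coordinates are affine) such that, with
`m = 2 ^ d * p`,

* the signs of all polynomials along the orbit are eventually `m`-periodic,
* the return sets of the orbit to all Zariski closed subsets of `L ^ d` are eventually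
  `m`-periodic (dynamical Mordell-Lang statement),
* if the Zariski closure of the orbit is irreducible, then the orbit is generic in it: every closed
  subset which does not contain the orbit contains `x n` for finitely many `n` only.
-/

set_option autoImplicit false

open Filter Topology

namespace Pool.Agent.Results.MP_f4ff90_ag.RealTowers

universe u v

variable {d : ℕ} {K : Type u} {L : Type v} [Field K] [Field L] [Algebra K L]

/-! ## Orbits, Zariski closed sets, genericity -/

/-- the point `v` of `K ^ d` as a point of `L ^ d` -/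
def toL (L : Type v) [Field L] [Algebra K L] (v : Fin d → K) : Fin d → L :=
  fun i => algebraMap K L (v i)

/-- `x` is an orbit of the rational self-map with components `num i / den i`, and the
denominators do not vanish along `x` -/
def IsOrbit (num den : Fin d → MvPolynomial (Fin d) K) (x : ℕ → Fin d → K) : Prop :=
  ∀ n i, MvPolynomial.eval (x n) (den i) ≠ 0 ∧
    x (n + 1) i = MvPolynomial.eval (x n) (num i) / MvPolynomial.eval (x n) (den i)

/-- Zariski closed subsets of `L ^ d` -/
def ZClosed (Y : Set (Fin d → L)) : Prop :=
  ∃ T : Set (MvPolynomial (Fin d) L), Y = {z | ∀ P ∈ T, MvPolynomial.eval z P = 0}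

/-- for every Zariski closed subset `Y` of `L ^ d`, the set of all `n` with `x n ∈ Y` is eventually
periodic with period `m` -/
def DML (L : Type v) [Field L] [Algebra K L] (m : ℕ) (x : ℕ → Fin d → K) : Prop :=
  ∀ Y : Set (Fin d → L), ZClosed Y → ∃ n₀, ∀ n ≥ n₀, (toL L (x (n + m)) ∈ Y ↔ toL L (x n) ∈ Y)

/-- the Zariski closure of the set of all `x n` in `L ^ d` is irreducible -/
def IrredClosure (L : Type v) [Field L] [Algebra K L] (x : ℕ → Fin d → K) : Prop :=
  ∀ Y₁ Y₂ : Set (Fin d → L), ZClosed Y₁ → ZClosed Y₂ → (∀ n, toL L (x n) ∈ Y₁ ∪ Y₂) →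
    (∀ n, toL L (x n) ∈ Y₁) ∨ ∀ n, toL L (x n) ∈ Y₂

/-- `x` is generic in its Zariski closure: every Zariski closed set which does not contain the
closure (equivalently, does not contain all `x n`) contains only finitely many terms -/
def GenericInClosure (L : Type v) [Field L] [Algebra K L] (x : ℕ → Fin d → K) : Prop :=
  ∀ Y : Set (Fin d → L), ZClosed Y → (∃ n, toL L (x n) ∉ Y) → {n | toL L (x n) ∈ Y}.Finite

/-- the signs (for the ordering of `K` given by `τ`) of all polynomials along `x` are eventually
periodic with period `m` -/
def SignPeriodicAt (τ : K →+* ℝ) (m : ℕ) (x : ℕ → Fin d → K) : Prop :=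
  ∀ P : MvPolynomial (Fin d) K, ∃ n₀, ∀ n ≥ n₀,
    SignType.sign (τ (MvPolynomial.eval (x (n + m)) P)) =
      SignType.sign (τ (MvPolynomial.eval (x n) P))

/-! ## Types of coordinates -/

/-- `p` involves only the variables `X j` with `j < i` -/
def Below (i : Fin d) (p : MvPolynomial (Fin d) K) : Prop := ∀ j ∈ p.vars, j < i

/-- `p` involves only the variables `X j` with `j ≤ i` -/
def UpTo (i : Fin d) (p : MvPolynomial (Fin d) K) : Prop := ∀ j ∈ p.vars, j ≤ i

/-- **affine coordinate**: the `i`-th component is `(A * X i + B) / den i`, where `A`, `B`, `den i`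
are polynomials in the lower coordinates -/
def AffineCoord (num den : Fin d → MvPolynomial (Fin d) K) (i : Fin d) : Prop :=
  ∃ A B : MvPolynomial (Fin d) K, Below i A ∧ Below i B ∧ Below i (den i) ∧
    num i = A * MvPolynomial.X i + B

/-- along arithmetic progressions of some difference `q`, the sequence converges to a real number,
to `+∞` or to `-∞` -/
def AsymPeriodic (u : ℕ → ℝ) : Prop :=
  ∃ q > 0, ∀ a : ℕ, (∃ l : ℝ, Tendsto (fun k => u (a + q * k)) atTop (𝓝 l)) ∨
    Tendsto (fun k => u (a + q * k)) atTop atTop ∨ Tendsto (fun k => u (a + q * k)) atTop atBot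

/-- **split coordinate**: the `i`-th component is a polynomial `F` in the `i`-th coordinate alone;
and the `i`-th coordinate of the orbit is asymptotically periodic, or `F` has integral
coefficients and the initial coordinate is an integer -/
def SplitCoord (τ : K →+* ℝ) (num den : Fin d → MvPolynomial (Fin d) K) (x : ℕ → Fin d → K)
    (i : Fin d) : Prop :=
  ∃ F : Polynomial K, num i = Polynomial.aeval (MvPolynomial.X i) F ∧ den i = 1 ∧
    (AsymPeriodic (fun n => τ (x n i)) ∨
      ((∃ G : Polynomial ℤ, F = G.map (Int.castRingHom K)) ∧ ∃ z : ℤ, x 0 i = z))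

/-- the `i`-th component of the map as a function of the `i`-th coordinate `t` -/
noncomputable def fibre (num den : Fin d → MvPolynomial (Fin d) ℝ) (i : Fin d) (v : Fin d → ℝ)
    (t : ℝ) : ℝ :=
  MvPolynomial.eval (Function.update v i t) (num i) /
    MvPolynomial.eval (Function.update v i t) (den i)

/-- the set of all real `t` such that, when `v i` is replaced by `t`, all iterated partial
derivatives with respect to the `i`-th variable of all `V ∈ 𝓥` keep their signs
(by Thom's lemma this is an interval or a point) -/
def cell (i : Fin d) (𝓥 : Finset (MvPolynomial (Fin d) ℝ)) (v : Fin d → ℝ) : Set ℝ :=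
  {t | ∀ V ∈ 𝓥, ∀ j : ℕ,
    SignType.sign (MvPolynomial.eval (Function.update v i t) ((MvPolynomial.pderiv i)^[j] V)) =
      SignType.sign (MvPolynomial.eval v ((MvPolynomial.pderiv i)^[j] V))}

/-- **tame coordinate**: there are finitely many polynomials `V` in the coordinates `X j`, `j ≤ i`,
such that

* the sign of every `∂ᵢʲ V` along the orbit is eventually `p`-periodic, unless `∂ᵢʲ V` involves only
  the lower coordinates (then nothing is required),
* for all large `n` the `i`-th component of the map, as a function of the `i`-th coordinate, is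
  defined and strictly monotone or constant on the cell of the point `x n`. -/
def TameCoord (num den : Fin d → MvPolynomial (Fin d) ℝ) (x : ℕ → Fin d → ℝ) (p : ℕ)
    (i : Fin d) : Prop :=
  ∃ 𝓥 : Finset (MvPolynomial (Fin d) ℝ), (∀ V ∈ 𝓥, UpTo i V) ∧
    (∀ V ∈ 𝓥, ∀ j : ℕ, Below i ((MvPolynomial.pderiv i)^[j] V) ∨ ∃ n₀, ∀ n ≥ n₀,
      SignType.sign (MvPolynomial.eval (x (n + p)) ((MvPolynomial.pderiv i)^[j] V)) =
        SignType.sign (MvPolynomial.eval (x n) ((MvPolynomial.pderiv i)^[j] V))) ∧
    ∃ n₀, ∀ n ≥ n₀,
      (∀ t ∈ cell i 𝓥 (x n), MvPolynomial.eval (Function.update (x n) i t) (den i) ≠ 0) ∧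
      (StrictMonoOn (fibre num den i (x n)) (cell i 𝓥 (x n)) ∨
        StrictAntiOn (fibre num den i (x n)) (cell i 𝓥 (x n)) ∨
        ∀ t ∈ cell i 𝓥 (x n), ∀ t' ∈ cell i 𝓥 (x n),
          fibre num den i (x n) t = fibre num den i (x n) t')

/-! ## The theorem -/

/-- **Main theorem.**  See the header of this file. -/
theorem result {d : ℕ} {K : Type u} {L : Type v} [Field K] [Field L] [Algebra K L]
    (τ : K →+* ℝ) (num den : Fin d → MvPolynomial (Fin d) K)
    (hnum : ∀ i, UpTo i (num i)) (hden : ∀ i, UpTo i (den i))
    (x : ℕ → Fin d → K) (hx : IsOrbit num den x)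
    (h : ∀ i, AffineCoord num den i ∨ SplitCoord τ num den x i ∨
      ∃ p > 0, TameCoord (fun i => MvPolynomial.map τ (num i))
        (fun i => MvPolynomial.map τ (den i)) (fun n i => τ (x n i)) p i) :
    ∃ p > 0, ((∀ i, AffineCoord num den i) → p = 1) ∧
      SignPeriodicAt τ (2 ^ d * p) x ∧ DML L (2 ^ d * p) x ∧
      (IrredClosure L x → GenericInClosure L x) :=
  Pool.Agent.Lib.MP_f4ff90_ag.main_theorem (τ := τ) (num := num) (den := den) (x := x)
    hx hnum hden h L

end Pool.Agent.Results.MP_f4ff90_ag.RealTowers
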